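import Pool.Agent.TH630.Fill.Final

/-!
# Super-Euclidean filling functions of (stratified) nilpotent Lie groups

Every non-abelian connected, simply connected nilpotent Lie group, in particular every
non-abelian stratified one, has a super-Euclidean filling function in some dimension
`k` with `1 ≤ k ≤ dim G - 1`.  The analytic work is in `Pool.Agent.TH630.Fill`; here the growth
relation `f ≼ g` is the one of this problem, with `g (C r + C)` on the right hand side.
-/

set_option autoImplicit false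
open scoped ENNReal

namespace Pool.Agent.Results.MP_b8ac35_gt.StratifiedFilling
open Pool.Agent.TH630

/-- The filling function in dimension `k` is not `≼ r ^ ((k+1)/k)`: there is no `C > 0` with
`FV(r) ≤ C (C r + C) ^ ((k+1)/k) + C r + C` for all `r ≥ 0`. -/
def SuperEuclideanFilling {n : ℕ} (G : NilLaw n) (B : Matrix (Fin n) (Fin n) ℝ) (k : ℕ) : Prop :=
  ¬ ∃ C : ℝ, 0 < C ∧ ∀ r : ℝ, 0 ≤ r →
    G.FV B k r ≤ ENNReal.ofReal (C * (C * r + C) ^ (((k : ℝ) + 1) / k) + C * r + C)

/-- Every non-abelian connected, simply connected nilpotent Lie group `G` (in particular every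
non-abelian stratified one), with an arbitrary left-invariant Riemannian metric, has a
super-Euclidean filling function in some dimension `k` with `1 ≤ k ≤ dim G - 1`. -/
theorem result {n : ℕ} (G : NilLaw n) (hG : ∃ x y, G.mul x y ≠ G.mul y x)
    (B : Matrix (Fin n) (Fin n) ℝ) (hB : B.PosDef) :
    ∃ k : ℕ, 1 ≤ k ∧ k ≤ n - 1 ∧ SuperEuclideanFilling G B k := by
  obtain ⟨k, hk1, hk2, hk⟩ := main_theorem G hG B hB
  refine ⟨k, hk1, by omega, ?_⟩
  rintro ⟨C, hC, h⟩
  apply hk
  set α : ℝ := ((k : ℝ) + 1) / k with hα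
  have hk0 : (0 : ℝ) < k := by exact_mod_cast hk1
  have hα0 : 0 ≤ α := by positivity
  have hE : 0 ≤ C * (2 * C) ^ α := mul_nonneg hC.le (Real.rpow_nonneg (by positivity) _)
  refine ⟨2 * C + C * (2 * C) ^ α + C, by positivity, fun ℓ hℓ => ?_⟩
  refine (h ℓ hℓ).trans (ENNReal.ofReal_le_ofReal ?_)
  have h1 : (C * ℓ + C) ^ α ≤ (2 * C * ℓ) ^ α + (2 * C) ^ α := by
    rcases le_total ℓ 1 with h2 | h2
    · have h3 : C * ℓ + C ≤ 2 * C := by nlinarith
      have h4 : (C * ℓ + C) ^ α ≤ (2 * C) ^ α :=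
        Real.rpow_le_rpow (by positivity) h3 hα0
      have h5 : 0 ≤ (2 * C * ℓ) ^ α := Real.rpow_nonneg (by positivity) _
      linarith
    · have h3 : C * ℓ + C ≤ 2 * C * ℓ := by nlinarith
      have h4 : (C * ℓ + C) ^ α ≤ (2 * C * ℓ) ^ α :=
        Real.rpow_le_rpow (by positivity) h3 hα0
      have h5 : 0 ≤ (2 * C) ^ α := Real.rpow_nonneg (by positivity) _
      linarith
  set C' : ℝ := 2 * C + C * (2 * C) ^ α + C with hC'
  have hCC : 2 * C ≤ C' := by rw [hC']; linarith
  have h6 : (2 * C * ℓ) ^ α ≤ (C' * ℓ) ^ α :=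
    Real.rpow_le_rpow (by positivity) (mul_le_mul_of_nonneg_right hCC hℓ) hα0
  have h7 : 0 ≤ (C' * ℓ) ^ α := Real.rpow_nonneg (mul_nonneg (by linarith) hℓ) _
  have h8 : C * (C * ℓ + C) ^ α ≤ C * (C' * ℓ) ^ α + C * (2 * C) ^ α := by
    have := mul_le_mul_of_nonneg_left (h1.trans (add_le_add_left h6 _)) hC.le
    linarith
  have h9 : C * (C' * ℓ) ^ α ≤ C' * (C' * ℓ) ^ α :=
    mul_le_mul_of_nonneg_right (by linarith) h7
  have h10 : C * ℓ ≤ C' * ℓ := mul_le_mul_of_nonneg_right (by linarith) hℓ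
  linarith

end Pool.Agent.Results.MP_b8ac35_gt.StratifiedFilling
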